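import Mathlib
import Pool.Agent.H688.WE.Core

set_option autoImplicit false

namespace Pool.Agent.Results.MP_901665_lc.ExpTestSets

/-- The maximal extension `M(L)` of a language `L` over the alphabet `Fin n`: the words on which
every pair of morphisms `g, h : Σ* → Σ*` that agrees on `L` also agrees. -/
def MaxExt (n : ℕ) (L : Set (List (Fin n))) : Set (List (Fin n)) :=
  {w | ∀ g h : Fin n → List (Fin n),
    (∀ v ∈ L, v.flatMap g = v.flatMap h) → w.flatMap g = w.flatMap h}

/-- **Exponential lower bound for the size of test sets.**  For every `n ≥ 8` there is a finite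
language `L` over the alphabet with `n` letters, with `(⌊n/4⌋ choose ⌊n/8⌋)` words, whose only test
set is `L` itself: `F ⊆ L ⊆ M(F)` forces `F = L`. -/
theorem result (n : ℕ) (hn : 8 ≤ n) :
    ∃ L : Finset (List (Fin n)), L.card = (n / 4).choose (n / 8) ∧
      ∀ F : Finset (List (Fin n)), F ⊆ L →
        (L : Set (List (Fin n))) ⊆ MaxExt n (F : Set (List (Fin n))) → F = L := by
  classical
  obtain ⟨W, hW⟩ := Pool.Agent.H688.WE.core n (n / 4) (by omega) (by omega)
  have hne : ∀ S ∈ Finset.powersetCard (n / 8) (Finset.univ : Finset (Fin (n / 4))),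
      S.Nonempty := by
    intro S hS
    have := (Finset.mem_powersetCard.1 hS).2
    apply Finset.card_pos.1
    omega
  have hsub : ∀ S ∈ Finset.powersetCard (n / 8) (Finset.univ : Finset (Fin (n / 4))),
      ∀ T ∈ Finset.powersetCard (n / 8) (Finset.univ : Finset (Fin (n / 4))), S ≠ T →
        ¬ S ⊆ T := by
    intro S hS T hT hST h
    apply hST
    apply Finset.eq_of_subset_of_card_le h
    rw [(Finset.mem_powersetCard.1 hS).2, (Finset.mem_powersetCard.1 hT).2]
  have hinj : Set.InjOn W
      (Finset.powersetCard (n / 8) (Finset.univ : Finset (Fin (n / 4))) : Set _) := by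
    intro S hS T hT hST
    by_contra hne'
    obtain ⟨g, h, hgh⟩ := hW T
    have h1 := (hgh S (hne S (by exact_mod_cast hS))).2
      (hsub S (by exact_mod_cast hS) T (by exact_mod_cast hT) hne')
    rw [hST] at h1
    exact (hgh T (hne T (by exact_mod_cast hT))).1 h1 (Finset.Subset.refl _)
  refine ⟨(Finset.powersetCard (n / 8) (Finset.univ : Finset (Fin (n / 4)))).image W, ?_, ?_⟩
  · rw [Finset.card_image_of_injOn hinj, Finset.card_powersetCard, Finset.card_univ,
      Fintype.card_fin]
  · intro F hF hL
    apply Finset.Subset.antisymm hF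
    intro w hw
    obtain ⟨B, hB, rfl⟩ := Finset.mem_image.1 hw
    by_contra hwF
    obtain ⟨g, h, hgh⟩ := hW B
    have h1 : W B ∈ MaxExt n (F : Set (List (Fin n))) := hL (by exact_mod_cast hw)
    have h2 : ∀ v ∈ (F : Set (List (Fin n))), v.flatMap g = v.flatMap h := by
      intro v hv
      have hv' : v ∈ F := by exact_mod_cast hv
      obtain ⟨S, hS, rfl⟩ := Finset.mem_image.1 (hF hv')
      refine (hgh S (hne S hS)).2 (hsub S hS B hB ?_)
      rintro rfl
      exact hwF hv'
    exact (hgh B (hne B hB)).1 (h1 g h h2) (Finset.Subset.refl _)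

end Pool.Agent.Results.MP_901665_lc.ExpTestSets
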